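import Pool.Agent.Y180.AK.OneD
import Pool.Agent.TH876.QD.SetC

/-!
# Points with few large primes: the count (job AK-J6)
-/

set_option autoImplicit false

namespace Pool.Agent.Y180.AK

open Finset NumberField IsDedekindDomain Height Pool.Agent.H691R3 Pool.Agent.TH876.Loc
open Pool.Agent.TH876.KR Pool.Agent.Y728.AK
open Pool.Agent.Y911.AA (grid)

/-- the bound of `class_one` -/
theorem class_bound {k m0 G : ℕ} {lp L : ℝ} (hm0 : 1 ≤ m0) (hk : k = 4 * m0) (hlp0 : 0 ≤ lp)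
    (hlp : lp ≤ 2 / 5 * L) :
    ((((k + ⌊(k : ℝ) * Real.exp (lp / k)⌋₊ + 1) ^ m0 * m0.factorial) *
      (2 * G + 1) ^ m0 : ℕ) : ℝ) ≤
      ((2 * k + 1) ^ m0 * m0.factorial * (2 * G + 1) ^ m0) * Real.exp (L / 10) := by
  have hm : (0 : ℝ) < m0 := by exact_mod_cast hm0
  have hkr : (k : ℝ) = 4 * m0 := by rw [hk]; push_cast; ring
  have hk0 : (0 : ℝ) < k := by rw [hkr]; positivity
  have h1 : (1 : ℝ) ≤ Real.exp (lp / k) := Real.one_le_exp (by positivity)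
  have h2 : ((⌊(k : ℝ) * Real.exp (lp / k)⌋₊ : ℕ) : ℝ) ≤ k * Real.exp (lp / k) :=
    Nat.floor_le (by positivity)
  have h3 : (k : ℝ) + (⌊(k : ℝ) * Real.exp (lp / k)⌋₊ : ℕ) + 1 ≤ (2 * k + 1) * Real.exp (lp / k) := by
    have := mul_le_mul_of_nonneg_left h1 (by positivity : 0 ≤ (k : ℝ) + 1)
    linarith
  have h4 : ((k : ℝ) + (⌊(k : ℝ) * Real.exp (lp / k)⌋₊ : ℕ) + 1) ^ m0 ≤
      (2 * k + 1) ^ m0 * Real.exp (L / 10) := by
    calc ((k : ℝ) + (⌊(k : ℝ) * Real.exp (lp / k)⌋₊ : ℕ) + 1) ^ m0 ≤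
          ((2 * k + 1) * Real.exp (lp / k)) ^ m0 := pow_le_pow_left₀ (by positivity) h3 _
      _ = (2 * k + 1) ^ m0 * Real.exp (m0 * (lp / k)) := by rw [mul_pow, ← Real.exp_nat_mul]
      _ ≤ (2 * k + 1) ^ m0 * Real.exp (L / 10) := by
          apply mul_le_mul_of_nonneg_left _ (by positivity)
          apply Real.exp_le_exp.2
          rw [hkr]
          have : (m0 : ℝ) * (lp / (4 * m0)) = lp / 4 := by field_simp
          rw [this]
          linarith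
  push_cast
  calc ((k : ℝ) + (⌊(k : ℝ) * Real.exp (lp / k)⌋₊ : ℕ) + 1) ^ m0 * (m0.factorial : ℝ) *
        (2 * (G : ℝ) + 1) ^ m0 ≤
        ((2 * k + 1) ^ m0 * Real.exp (L / 10)) * (m0.factorial : ℝ) * (2 * (G : ℝ) + 1) ^ m0 := by
        apply mul_le_mul_of_nonneg_right _ (by positivity)
        exact mul_le_mul_of_nonneg_right h4 (by positivity)
    _ = _ := by ring

theorem exists_par (θ c h C' : ℝ) (hθ : 0 < θ) (hc : 1 ≤ c) (hh : 1 ≤ h) (hC' : 0 ≤ C') :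
    ∃ (m0 k N G : ℕ) (η κ M L0 : ℝ), 1 ≤ m0 ∧ 1 ≤ θ * m0 ∧ k = 4 * m0 ∧ 1 ≤ k ∧ 2 ≤ N ∧
      24 * c * k * h ≤ θ * N ∧ 576 * c * k ^ 2 * h ^ 2 * m0 ≤ θ ^ 2 * N ∧
      0 < η ∧ η ≤ 1 / 4 ∧ 6 * η * N ^ m0 / θ ≤ 1 / N ∧ 0 < κ ∧ 2 * κ * N ^ m0 ≤ 1 / N ∧
      3 * (N : ℝ) ^ m0 / θ ≤ G ∧ 0 < M ∧ (N : ℝ) ^ m0 / η ≤ M ∧
      2 * (N : ℝ) ^ m0 * (N + 2 * m0) ≤ M ∧ 1 ≤ L0 ∧ N * c / θ ≤ L0 ∧
      N * (C' * (m0 * G)) ≤ L0 := by
  obtain ⟨m0, hm0⟩ : ∃ m0 : ℕ, 1 / θ ≤ m0 := exists_nat_ge _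
  have hm0' : 1 ≤ θ * m0 := by
    rw [div_le_iff₀ hθ] at hm0
    linarith
  have hm1 : 1 ≤ m0 := by
    rcases Nat.eq_zero_or_pos m0 with h | h
    · rw [h, Nat.cast_zero, mul_zero] at hm0'
      norm_num at hm0'
    · exact h
  have hc0 : 0 < c := by linarith
  have hh0 : 0 < h := by linarith
  obtain ⟨N, hN⟩ : ∃ N : ℕ, 2 + 24 * c * ((4 * m0 : ℕ) : ℝ) * h / θ +
      576 * c * ((4 * m0 : ℕ) : ℝ) ^ 2 * h ^ 2 * m0 / θ ^ 2 ≤ N := exists_nat_ge _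
  have hp1 : 0 ≤ 24 * c * ((4 * m0 : ℕ) : ℝ) * h / θ := by positivity
  have hp2 : 0 ≤ 576 * c * ((4 * m0 : ℕ) : ℝ) ^ 2 * h ^ 2 * m0 / θ ^ 2 := by positivity
  have hN2 : (2 : ℝ) ≤ N := by linarith
  have hN0 : (0 : ℝ) < N := by linarith
  obtain ⟨G, hG⟩ : ∃ G : ℕ, 3 * (N : ℝ) ^ m0 / θ ≤ G := exists_nat_ge _
  obtain ⟨η, hη⟩ : ∃ η : ℝ, η = min (1 / 4) (θ / (6 * N ^ (m0 + 1))) := ⟨_, rfl⟩
  have hη0 : 0 < η := by rw [hη]; exact lt_min (by norm_num) (by positivity)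
  have hM1 : 0 ≤ (N : ℝ) ^ m0 / η := by positivity
  have hM2 : 0 ≤ 2 * (N : ℝ) ^ m0 * (N + 2 * m0) := by positivity
  have hL1 : 0 ≤ N * c / θ := by positivity
  have hL2 : 0 ≤ N * (C' * (m0 * G)) := by positivity
  refine ⟨m0, 4 * m0, N, G, η, 1 / (2 * N ^ (m0 + 1)),
    1 + (N : ℝ) ^ m0 / η + 2 * (N : ℝ) ^ m0 * (N + 2 * m0), 1 + N * c / θ + N * (C' * (m0 * G)),
    hm1, hm0', rfl, by omega,
    by exact_mod_cast hN2, ?_, ?_, hη0, ?_, ?_, by positivity, ?_, hG, by linarith, by linarith,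
    by linarith, by linarith, by linarith, by linarith⟩
  · have h1 : 24 * c * ((4 * m0 : ℕ) : ℝ) * h / θ ≤ N := by linarith
    rw [div_le_iff₀ hθ] at h1
    linarith
  · have h1 : 576 * c * ((4 * m0 : ℕ) : ℝ) ^ 2 * h ^ 2 * m0 / θ ^ 2 ≤ N := by linarith
    rw [div_le_iff₀ (by positivity)] at h1
    linarith
  · rw [hη]; exact min_le_left _ _
  · have h1 : η ≤ θ / (6 * N ^ (m0 + 1)) := by rw [hη]; exact min_le_right _ _
    calc 6 * η * N ^ m0 / θ ≤ 6 * (θ / (6 * N ^ (m0 + 1))) * N ^ m0 / θ := by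
          rw [div_le_div_iff_of_pos_right hθ]
          apply mul_le_mul_of_nonneg_right _ (by positivity)
          linarith
      _ = 1 / N := by
          rw [pow_succ]
          field_simp
  · refine le_of_eq ?_
    rw [pow_succ]
    field_simp

theorem pow_eight_le {L : ℝ} (hL : 0 ≤ L) : L ^ 8 ≤ 80 ^ 8 * Real.exp (L / 10) := by
  have h1 : L / 80 ≤ Real.exp (L / 80) := by
    have := Real.add_one_le_exp (L / 80)
    linarith
  have h2 : (L / 80) ^ 8 ≤ Real.exp (L / 80) ^ 8 := pow_le_pow_left₀ (by positivity) h1 8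
  rw [← Real.exp_nat_mul] at h2
  have e1 : ((8 : ℕ) : ℝ) * (L / 80) = L / 10 := by push_cast; ring
  rw [e1] at h2
  calc L ^ 8 = 80 ^ 8 * (L / 80) ^ 8 := by ring
    _ ≤ _ := mul_le_mul_of_nonneg_left h2 (by norm_num)

/-- **Points with few large primes carrying everything.** -/
theorem count_one (K : Type) [Field K] [NumberField K] {h0 : ℕ} {C0 : ℝ} {g0 : Pr K → 𝓞 K}
    (G : GB K h0 C0 g0) (hc : SunFin K h0 g0) : CountOne K := by
  classical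
  obtain ⟨c1, hc1, hcl⟩ := class_one G hc
  intro θ hθ hθ1
  have hh0 : (1 : ℝ) ≤ h0 := by exact_mod_cast G.h1
  have hC : (1 : ℝ) ≤ C0 := G.C1
  have hd1 : (1 : ℝ) ≤ Module.finrank ℚ K := by exact_mod_cast Module.finrank_pos
  have hd0 : (0 : ℝ) < Module.finrank ℚ K := by linarith
  obtain ⟨m0, k, N, Gn, η, κ, M, L0, hm1, hm0, hk, hk1, hN2, hN3, hN4, hη, hη4, hη2, hκ, hκ2, hG,
    hM0, hM1, hM2, hL01, hL02, hL03⟩ := exists_par θ c1 h0 (Module.finrank ℚ K * C0) hθ hc1 hh0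
      (by positivity)
  obtain ⟨B, hB⟩ : ∃ B : ℝ, B = (2 * k + 1) ^ m0 * m0.factorial * (2 * Gn + 1) ^ m0 := ⟨_, rfl⟩
  have hB0 : 0 < B := by rw [hB]; positivity
  have hN0 : (0 : ℝ) < N := by exact_mod_cast (by omega : 0 < N)
  have hNm : (1 : ℝ) ≤ (N : ℝ) ^ m0 := one_le_pow₀ (by exact_mod_cast (by omega : 1 ≤ N))
  refine ⟨κ, M, (N : ℝ) ^ m0 * ((2 / η * 80 ^ 8 + 1) * Module.finrank ℚ K) * B,
    Real.exp L0 + 16, hκ, hM0, by positivity, by linarith [Real.exp_pos L0],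
    fun X hX F hF => ?_⟩
  have hX0 : 0 < X := by linarith [Real.exp_pos L0]
  obtain ⟨L, hL⟩ : ∃ L, L = Real.log X := ⟨_, rfl⟩
  have hLL : L0 ≤ L := by
    rw [hL, Real.le_log_iff_exp_le hX0]
    linarith
  rw [← hL] at hF
  have hL1 : 1 ≤ L := by linarith
  have hL0 : 0 < L := by linarith
  have hLa : N * c1 ≤ θ * L := by
    have : N * c1 / θ ≤ L := by linarith
    rw [div_le_iff₀ hθ] at this
    linarith
  have hXr : ∀ a : ℝ, X ^ a = Real.exp (a * L) := by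
    intro a
    rw [Real.rpow_def_of_pos hX0, hL, mul_comm]
  obtain ⟨S, hS⟩ : ∃ S, S = ⌊2 / η * L ^ 8⌋₊ := ⟨_, rfl⟩
  obtain ⟨P, hP⟩ : ∃ P, P = (F.biUnion fun x => sp x).filter
      (fun v => Nv v ≤ Real.exp (2 / 5 * L)) := ⟨_, rfl⟩
  obtain ⟨U, hU⟩ : ∃ U : ℕ × ℕ × Pr K → Finset K, U = fun y => F.filter fun x =>
      1 ≤ y.1 ∧ θ * L < Real.log (Nv y.2.2) ∧ Real.log (Nv y.2.2) ≤ 2 / 5 * L ∧
      (N : ℝ) + 2 * m0 ≤ grid η y.2.1 ∧ Pt x ∧
      ∃ T n, Cl g0 h0 θ η L m0 N Gn y.1 y.2.1 y.2.2 x T n := ⟨_, rfl⟩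
  obtain ⟨Y, hY⟩ : ∃ Y, Y = (Finset.Icc 1 (N ^ m0)) ×ˢ ((Finset.range (S + 1)) ×ˢ P) := ⟨_, rfl⟩
  have h1 : F ⊆ Y.biUnion U := by
    intro x hx
    obtain ⟨hx0, hx1, hx2, hx3, hx4, hx5⟩ := hF x hx
    have D : DataO θ κ L x := by
      refine ⟨hx0, ?_, hx4 0, fun i => ?_⟩
      · rw [← log_nn, hL]
        exact Real.log_le_log (nn_pos _) hx1
      · refine le_trans (le_of_eq ?_) (hx5 i)
        congr 1
    have hHL : M ≤ hgt x / L := by rw [le_div_iff₀ hL0]; exact hx2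
    have hH0 : 0 < hgt x := lt_of_lt_of_le (by positivity) hx2
    obtain ⟨t, s, p, ht1, ht2, hs, hps, hp1, hp2, hZ, hR⟩ := str_one G D hL0 hθ hθ1 hm0 hN2 hη hη4
      hη2 hκ2 hκ.le hG (hM1.trans hHL) (by linarith)
    have hgE : (N : ℝ) + 2 * m0 ≤ grid η s := by
      have e1 : (t : ℝ) ≤ (N : ℝ) ^ m0 := by exact_mod_cast ht2
      have e2 : 2 * (t : ℝ) * grid η s ≤ 2 * (N : ℝ) ^ m0 * grid η s :=
        mul_le_mul_of_nonneg_right (by linarith) (Nat.cast_nonneg _)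
      have e3 : 2 * (N : ℝ) ^ m0 * (N + 2 * m0) ≤ 2 * (N : ℝ) ^ m0 * grid η s := by linarith
      exact le_of_mul_le_mul_left e3 (by positivity)
    rw [Finset.mem_biUnion]
    refine ⟨(t, s, p), ?_, ?_⟩
    · rw [hY, Finset.mem_product, Finset.mem_product, Finset.mem_Icc, Finset.mem_range,
        Nat.lt_succ_iff]
      refine ⟨⟨ht1, ht2⟩, ?_, ?_⟩
      · rw [hS]
        refine Nat.le_floor (hs.trans ?_)
        have e1 : Real.log (hgt x / L) ≤ L ^ 8 := by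
          calc Real.log (hgt x / L) ≤ Real.log (hgt x) := by
                apply Real.log_le_log (by positivity)
                exact div_le_self hH0.le hL1
            _ ≤ L ^ 8 := by
                rw [Real.log_le_iff_le_exp hH0]
                exact hx3
        exact mul_le_mul_of_nonneg_left e1 (by positivity)
      · rw [hP, Finset.mem_filter, Finset.mem_biUnion]
        refine ⟨⟨x, hx, hps⟩, ?_⟩
        rw [← Real.log_le_iff_le_exp (Nv_pos p)]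
        exact hp2
    · rw [hU, Finset.mem_filter]
      exact ⟨hx, ht1, hp1, hp2, hgE, hx0, hR⟩
  have h2 : ∀ y ∈ Y, ((U y).card : ℝ) ≤ B * Real.exp (L / 10) := by
    intro y hy
    rcases (U y).eq_empty_or_nonempty with h0 | ⟨x, hx⟩
    · rw [h0, Finset.card_empty, Nat.cast_zero]; positivity
    · rw [hU, Finset.mem_filter] at hx
      obtain ⟨-, ht1, hp1, hp2, hg1, -⟩ := hx
      have h3 := hcl (Gn := Gn) hθ hθ1 hm1 hk1 (by omega : 1 ≤ N) hN3 hN4 ht1 hg1 hp1 hp2 hLa (U y)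
        (fun x hx => by
          rw [hU, Finset.mem_filter] at hx
          exact hx.2.2.2.2.2)
      have h4 := class_bound (k := k) (m0 := m0) (G := Gn) (lp := Real.log (Nv y.2.2)) (L := L) hm1
        hk (log_Nv_pos' _).le hp2
      rw [hB]
      exact le_trans (by exact_mod_cast h3) h4
  have h3 : (F.card : ℝ) ≤ Y.card * (B * Real.exp (L / 10)) := by
    calc (F.card : ℝ) ≤ ((Y.biUnion U).card : ℝ) := by exact_mod_cast Finset.card_le_card h1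
      _ ≤ ((∑ y ∈ Y, (U y).card : ℕ) : ℝ) := by exact_mod_cast Finset.card_biUnion_le
      _ = ∑ y ∈ Y, ((U y).card : ℝ) := by push_cast; rfl
      _ ≤ ∑ _y ∈ Y, B * Real.exp (L / 10) := Finset.sum_le_sum h2
      _ = _ := by rw [Finset.sum_const, nsmul_eq_mul]
  have hPr : (P.card : ℝ) ≤ Module.finrank ℚ K * Real.exp (2 / 5 * L) := by
    refine Pool.Agent.TH876.QD.SetC_card_small _ (Real.exp_pos _).le P fun v hv => ?_
    rw [hP, Finset.mem_filter] at hv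
    exact hv.2
  have hSr : (S : ℝ) ≤ 2 / η * L ^ 8 := by rw [hS]; exact Nat.floor_le (by positivity)
  have hS1 : (S : ℝ) + 1 ≤ (2 / η * 80 ^ 8 + 1) * Real.exp (L / 10) := by
    have e1 := mul_le_mul_of_nonneg_left (pow_eight_le hL0.le) (by positivity : 0 ≤ 2 / η)
    have e2 : 1 ≤ Real.exp (L / 10) := Real.one_le_exp (by positivity)
    have e3 : (2 / η * 80 ^ 8 + 1) * Real.exp (L / 10) =
        2 / η * (80 ^ 8 * Real.exp (L / 10)) + Real.exp (L / 10) := by ring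
    rw [e3]
    linarith
  have hYc : (Y.card : ℝ) ≤ N ^ m0 * (((2 / η * 80 ^ 8 + 1) * Real.exp (L / 10)) *
      (Module.finrank ℚ K * Real.exp (2 / 5 * L))) := by
    rw [hY, Finset.card_product, Finset.card_product, Nat.card_Icc, Finset.card_range]
    rw [Nat.add_sub_cancel]
    push_cast
    apply mul_le_mul_of_nonneg_left _ (by positivity)
    exact mul_le_mul hS1 hPr (Nat.cast_nonneg _) (by positivity)
  calc (F.card : ℝ) ≤ Y.card * (B * Real.exp (L / 10)) := h3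
    _ ≤ N ^ m0 * (((2 / η * 80 ^ 8 + 1) * Real.exp (L / 10)) *
      (Module.finrank ℚ K * Real.exp (2 / 5 * L))) *
        (B * Real.exp (L / 10)) := mul_le_mul_of_nonneg_right hYc (by positivity)
    _ = (N : ℝ) ^ m0 * ((2 / η * 80 ^ 8 + 1) * Module.finrank ℚ K) * B *
        (Real.exp (L / 10) * Real.exp (2 / 5 * L) * Real.exp (L / 10)) := by ring
    _ = _ := by
        rw [← Real.exp_add, ← Real.exp_add, hXr]
        congr 2
        ring

end Pool.Agent.Y180.AK
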