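import Pool.Agent.Y728.AK.GBL
import Pool.Agent.TH876.KR.Fiber

/-!
# Points with few large primes: the height of the defect of a power (job AK-J6)
-/

set_option autoImplicit false

namespace Pool.Agent.Y180.AK

open Finset NumberField IsDedekindDomain Height Pool.Agent.H691R3 Pool.Agent.TH876.Loc
open Pool.Agent.TH876.KR Pool.Agent.Y728.AK

variable {K : Type} [Field K] [NumberField K] {h0 : ℕ} {C0 : ℝ} {g0 : Pr K → 𝓞 K}

theorem log_fv_eq (v : Pr K) (z : K) : Real.log (fv v z) = lg (Sum.inr v : Pl K) z := by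
  unfold lg
  show _ = 1 * Real.log (fv v z)
  rw [one_mul]

theorem log_inf_eq (w : InfinitePlace K) (z : K) :
    (w.mult : ℝ) * Real.log (w z) = lg (Sum.inl w : Pl K) z := rfl

theorem sum_mult : ∑ w : InfinitePlace K, (w.mult : ℝ) = Module.finrank ℚ K := by
  rw [← InfinitePlace.sum_mult_eq (K := K)]
  push_cast
  rfl

theorem mu_out (G : GB K h0 C0 g0) (T : Finset (Pr K)) (n : Pr K → ℤ) (hn : ∀ v, v ∉ T → n v = 0)
    (v : Pr K) : Real.log (fv v (mu g0 T n)) = -(h0 * n v * Real.log (Nv v)) := by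
  by_cases hv : v ∈ T
  · exact G.fv_mu T n hv
  · rw [G.fv_mu_out T n hv, Real.log_one, hn v hv]
    simp

theorem fv_qt_out {x : K} (hx : Pt x) {v : Pr K} (hv : v ∉ sp x) (B C : Fin 3) :
    fv v (qt B C x) = 1 := by
  unfold qt
  rw [(fv v).map_neg, map_div₀, fv_L hx hv, fv_L hx hv, div_one]

/-- the height of the quotient of a power of the point by a power of a product of generators -/
theorem height_ka (G : GB K h0 C0 g0) {x : K} (hx : Pt x) (T : Finset (Pr K)) (hT : T ⊆ sp x)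
    (n : Pr K → ℤ) (hn : ∀ v, v ∉ T → n v = 0) (E : ℕ) :
    logHeight₁ (qt 1 2 x ^ h0 / mu g0 T n ^ E) ≤
      h0 * (∑ v ∈ sp x, |df (Sum.inr v : Pl K) 2 x - df (Sum.inr v : Pl K) 1 x +
        E * (n v * Real.log (Nv v))|) + h0 * (aw 1 x + aw 2 x) +
      (h0 * |E * ∑ v ∈ T, n v * Real.log (Nv v)| +
        E * (Module.finrank ℚ K * C0 * ∑ v ∈ T, |(n v : ℝ)|)) := by
  have hq := qt_ne hx 1 2
  have hm := G.mu_ne T n
  have hz : qt 1 2 x ^ h0 / mu g0 T n ^ E ≠ 0 := div_ne_zero (pow_ne_zero _ hq) (pow_ne_zero _ hm)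
  have hd : (0 : ℝ) < Module.finrank ℚ K := by exact_mod_cast Module.finrank_pos
  refine (height_le_sum hz (sp x) ?_).trans ?_
  · intro v hv
    rw [map_div₀, map_pow, map_pow, fv_qt_out hx hv, G.fv_mu_out T n (fun h => hv (hT h)), one_pow,
      one_pow, div_one]
  rw [add_assoc]
  refine add_le_add ?_ ?_
  · rw [Finset.mul_sum]
    refine le_of_eq (Finset.sum_congr rfl fun v _ => ?_)
    have h1 : Real.log (fv v (qt 1 2 x ^ h0 / mu g0 T n ^ E)) =
        h0 * (df (Sum.inr v : Pl K) 2 x - df (Sum.inr v : Pl K) 1 x +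
        E * (n v * Real.log (Nv v))) := by
      rw [map_div₀, map_pow, map_pow, Real.log_div (pow_ne_zero _ (Pool.Agent.TH876.KR.fv_pos v hq).ne')
        (pow_ne_zero _ (Pool.Agent.TH876.KR.fv_pos v hm).ne'), Real.log_pow, Real.log_pow, mu_out G T n hn,
        log_fv_eq, lg_qt hx]
      ring
    rw [h1, abs_mul, abs_of_nonneg (Nat.cast_nonneg h0)]
  · have h2 : ∀ w : InfinitePlace K, (w.mult : ℝ) * |Real.log (w (qt 1 2 x ^ h0 / mu g0 T n ^ E))| ≤
        h0 * (df (Sum.inl w : Pl K) 1 x + df (Sum.inl w : Pl K) 2 x) +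
        (w.mult : ℝ) * (h0 / (Module.finrank ℚ K : ℝ) * |E * ∑ v ∈ T, n v * Real.log (Nv v)| +
          E * (C0 * ∑ v ∈ T, |(n v : ℝ)|)) := by
      intro w
      have hmw : (0 : ℝ) < w.mult := by exact_mod_cast InfinitePlace.mult_pos
      have hlog : Real.log (w (qt 1 2 x ^ h0 / mu g0 T n ^ E)) =
          h0 * Real.log (w (qt 1 2 x)) - E * Real.log (w (mu g0 T n)) := by
        rw [map_div₀, map_pow, map_pow, Real.log_div
          (pow_ne_zero _ (InfinitePlace.pos_iff.2 hq).ne')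
          (pow_ne_zero _ (InfinitePlace.pos_iff.2 hm).ne'), Real.log_pow, Real.log_pow]
      have e1 : (w.mult : ℝ) * |Real.log (w (qt 1 2 x))| ≤
          df (Sum.inl w : Pl K) 1 x + df (Sum.inl w : Pl K) 2 x := by
        have h3 := lg_qt hx 1 2 (Sum.inl w : Pl K)
        rw [← log_inf_eq] at h3
        have h4 : (w.mult : ℝ) * |Real.log (w (qt 1 2 x))| =
            |(w.mult : ℝ) * Real.log (w (qt 1 2 x))| := by
          rw [abs_mul, abs_of_pos hmw]
        rw [h4, h3, abs_le]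
        have d1 := df_nonneg (Sum.inl w : Pl K) 1 hx
        have d2 := df_nonneg (Sum.inl w : Pl K) 2 hx
        constructor <;> linarith
      have e2 : |(E : ℝ) * Real.log (w (mu g0 T n))| ≤
          h0 / (Module.finrank ℚ K : ℝ) * |E * ∑ v ∈ T, n v * Real.log (Nv v)| +
          E * (C0 * ∑ v ∈ T, |(n v : ℝ)|) := by
        have h5 := G.inf_mu T n w
        have h6 : (E : ℝ) * Real.log (w (mu g0 T n)) =
            h0 / (Module.finrank ℚ K : ℝ) * (E * ∑ v ∈ T, n v * Real.log (Nv v)) +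
            E * (Real.log (w (mu g0 T n)) - h0 / (Module.finrank ℚ K : ℝ) *
              ∑ v ∈ T, n v * Real.log (Nv v)) := by ring
        rw [h6]
        refine (abs_add_le _ _).trans (add_le_add ?_ ?_)
        · rw [abs_mul, abs_of_nonneg (by positivity : 0 ≤ (h0 : ℝ) / (Module.finrank ℚ K : ℝ))]
        · rw [abs_mul, abs_of_nonneg (Nat.cast_nonneg E)]
          exact mul_le_mul_of_nonneg_left h5 (Nat.cast_nonneg E)
      rw [hlog]
      calc (w.mult : ℝ) * |h0 * Real.log (w (qt 1 2 x)) - E * Real.log (w (mu g0 T n))| ≤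
            (w.mult : ℝ) * (h0 * |Real.log (w (qt 1 2 x))| + |E * Real.log (w (mu g0 T n))|) := by
            refine mul_le_mul_of_nonneg_left ?_ hmw.le
            refine (abs_sub _ _).trans ?_
            rw [abs_mul, abs_of_nonneg (Nat.cast_nonneg h0)]
        _ = h0 * ((w.mult : ℝ) * |Real.log (w (qt 1 2 x))|) +
            (w.mult : ℝ) * |E * Real.log (w (mu g0 T n))| := by ring
        _ ≤ _ := add_le_add (mul_le_mul_of_nonneg_left e1 (Nat.cast_nonneg _))
            (mul_le_mul_of_nonneg_left e2 hmw.le)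
    refine (Finset.sum_le_sum fun w _ => h2 w).trans ?_
    rw [Finset.sum_add_distrib, ← Finset.mul_sum, Finset.sum_add_distrib, ← Finset.sum_mul, sum_mult]
    refine add_le_add (le_of_eq rfl) (le_of_eq ?_)
    field_simp

end Pool.Agent.Y180.AK
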