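import Pool.Agent.Y180.AK.OneA
import Pool.Agent.Y911.AA.StrOne

/-!
# Points with few large primes: structure (job AK-J6)
-/

set_option autoImplicit false

namespace Pool.Agent.Y180.AK

open Finset NumberField IsDedekindDomain Height Pool.Agent.H691R3 Pool.Agent.TH876.Loc
open Pool.Agent.TH876.KR Pool.Agent.Y728.AK

variable {K : Type} [Field K] [NumberField K] {h0 : ℕ} {C0 : ℝ} {g0 : Pr K → 𝓞 K}

open Classical in
/-- the weight of the light primes of a side -/
noncomputable def lt (T : ℝ) (i : Fin 3) (x : K) : ℝ :=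
  ∑ v ∈ (side i x).filter (fun v => Real.log (Nv v) ≤ T), df (Sum.inr v : Pl K) i x

theorem lt_nonneg {x : K} (hx : Pt x) (T : ℝ) (i : Fin 3) : 0 ≤ lt T i x :=
  Finset.sum_nonneg fun v _ => df_nonneg _ i hx

/-- the sums over a side of the deviations of the exponents -/
theorem side_dev {x : K} (hx : Pt x) (i : Fin 3) (g : Pr K → ℕ) (E : ℕ) {T ρ : ℝ} (hρ : 0 ≤ ρ)
    (hg0 : ∀ v, Real.log (Nv v) ≤ T → g v = 0)
    (hg : ∀ v ∈ side i x, T < Real.log (Nv v) →
      |df (Sum.inr v : Pl K) i x - E * (g v * Real.log (Nv v))| ≤ ρ * Real.log (Nv v)) :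
    ∑ v ∈ side i x, |df (Sum.inr v : Pl K) i x - E * (g v * Real.log (Nv v))| ≤
      ρ * rr i x + lt T i x := by
  classical
  rw [← Finset.sum_filter_add_sum_filter_not (side i x) (fun v => Real.log (Nv v) ≤ T), add_comm]
  refine add_le_add ?_ ?_
  · calc ∑ v ∈ (side i x).filter (fun v => ¬ Real.log (Nv v) ≤ T),
          |df (Sum.inr v : Pl K) i x - E * (g v * Real.log (Nv v))| ≤
        ∑ v ∈ (side i x).filter (fun v => ¬ Real.log (Nv v) ≤ T), ρ * Real.log (Nv v) := by
          refine Finset.sum_le_sum fun v hv => ?_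
          rw [Finset.mem_filter, not_le] at hv
          exact hg v hv.1 hv.2
      _ ≤ ∑ v ∈ side i x, ρ * Real.log (Nv v) := by
          refine Finset.sum_le_sum_of_subset_of_nonneg (Finset.filter_subset _ _) fun v _ _ => ?_
          exact mul_nonneg hρ (log_Nv_pos' v).le
      _ = ρ * rr i x := by rw [← Finset.mul_sum]; rfl
  · unfold lt
    refine le_of_eq ?_
    have e : ∀ v ∈ (side i x).filter (fun v => Real.log (Nv v) ≤ T),
        |df (Sum.inr v : Pl K) i x - E * (g v * Real.log (Nv v))| = df (Sum.inr v : Pl K) i x := by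
      intro v hv
      rw [Finset.mem_filter] at hv
      rw [hg0 v hv.2, Nat.cast_zero, zero_mul, mul_zero, sub_zero, abs_of_nonneg (df_nonneg _ i hx)]
    rw [Finset.sum_congr rfl e]

/-- the same without absolute values, more precisely -/
theorem side_sumE {x : K} (hx : Pt x) (i : Fin 3) (g : Pr K → ℕ) (E : ℕ) {T ρ : ℝ} (hρ : 0 ≤ ρ)
    (hg0 : ∀ v, Real.log (Nv v) ≤ T → g v = 0)
    (hg : ∀ v ∈ side i x, T < Real.log (Nv v) →
      |df (Sum.inr v : Pl K) i x - E * (g v * Real.log (Nv v))| ≤ ρ * Real.log (Nv v)) :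
    |E * ∑ v ∈ side i x, g v * Real.log (Nv v) - (hgt x - (aw i x + lt T i x))| ≤ ρ * rr i x := by
  classical
  have h1 := side_sum hx i
  have h2 : E * ∑ v ∈ side i x, g v * Real.log (Nv v) - (hgt x - (aw i x + lt T i x)) =
      -∑ v ∈ (side i x).filter (fun v => ¬ Real.log (Nv v) ≤ T),
        (df (Sum.inr v : Pl K) i x - E * (g v * Real.log (Nv v))) := by
    have h3 : ∑ v ∈ side i x, (df (Sum.inr v : Pl K) i x - E * (g v * Real.log (Nv v))) =
        lt T i x + ∑ v ∈ (side i x).filter (fun v => ¬ Real.log (Nv v) ≤ T),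
        (df (Sum.inr v : Pl K) i x - E * (g v * Real.log (Nv v))) := by
      rw [← Finset.sum_filter_add_sum_filter_not (side i x) (fun v => Real.log (Nv v) ≤ T)]
      congr 1
      unfold lt
      refine Finset.sum_congr (by congr) fun v hv => ?_
      rw [Finset.mem_filter] at hv
      rw [hg0 v hv.2, Nat.cast_zero, zero_mul, mul_zero, sub_zero]
    rw [Finset.sum_sub_distrib, ← Finset.mul_sum] at h3
    linarith
  rw [h2, abs_neg]
  calc |∑ v ∈ (side i x).filter (fun v => ¬ Real.log (Nv v) ≤ T),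
        (df (Sum.inr v : Pl K) i x - E * (g v * Real.log (Nv v)))| ≤
        ∑ v ∈ (side i x).filter (fun v => ¬ Real.log (Nv v) ≤ T),
        |df (Sum.inr v : Pl K) i x - E * (g v * Real.log (Nv v))| := Finset.abs_sum_le_sum_abs _ _
      _ ≤ ∑ v ∈ (side i x).filter (fun v => ¬ Real.log (Nv v) ≤ T), ρ * Real.log (Nv v) := by
          refine Finset.sum_le_sum fun v hv => ?_
          rw [Finset.mem_filter, not_le] at hv
          exact hg v hv.1 hv.2
      _ ≤ ∑ v ∈ side i x, ρ * Real.log (Nv v) := by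
          refine Finset.sum_le_sum_of_subset_of_nonneg (Finset.filter_subset _ _) fun v _ _ => ?_
          exact mul_nonneg hρ (log_Nv_pos' v).le
      _ = ρ * rr i x := by rw [← Finset.mul_sum]; rfl

open Classical in
/-- the primes of the product of generators -/
noncomputable def TT (g : Pr K → ℕ) (x : K) : Finset (Pr K) :=
  (side 1 x ∪ side 2 x).filter fun v => g v ≠ 0

open Classical in
/-- the exponents of the product of generators -/
noncomputable def ex (g : Pr K → ℕ) (x : K) (v : Pr K) : ℤ :=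
  if v ∈ side 1 x then (g v : ℤ) else if v ∈ side 2 x then -(g v : ℤ) else 0

theorem ex_out (g : Pr K → ℕ) (x : K) (v : Pr K) (hv : v ∉ TT g x) : ex g x v = 0 := by
  classical
  unfold TT at hv
  rw [Finset.mem_filter, Finset.mem_union] at hv
  unfold ex
  by_cases h : g v = 0
  · rw [h]; simp
  · have h1 : v ∉ side 1 x := fun h' => hv ⟨Or.inl h', h⟩
    have h2 : v ∉ side 2 x := fun h' => hv ⟨Or.inr h', h⟩
    rw [if_neg h1, if_neg h2]

theorem ex_ne (g : Pr K → ℕ) (x : K) (v : Pr K) (hv : v ∈ TT g x) : ex g x v ≠ 0 := by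
  classical
  unfold TT at hv
  rw [Finset.mem_filter, Finset.mem_union] at hv
  unfold ex
  obtain ⟨h1 | h1, h2⟩ := hv
  · rw [if_pos h1]
    exact_mod_cast h2
  · rw [if_neg (fun h => absurd (side_uniq h h1) (by decide)), if_pos h1, neg_ne_zero]
    exact_mod_cast h2

theorem ex_abs (g : Pr K → ℕ) (x : K) (v : Pr K) : |ex g x v| ≤ g v := by
  classical
  unfold ex
  split_ifs
  · rw [abs_of_nonneg (Int.natCast_nonneg _)]
  · rw [abs_neg, abs_of_nonneg (Int.natCast_nonneg _)]
  · rw [abs_zero]; exact Int.natCast_nonneg _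

theorem TT_sub (g : Pr K → ℕ) (x : K) : TT g x ⊆ sp x := by
  classical
  intro v hv
  unfold TT at hv
  rw [Finset.mem_filter, Finset.mem_union] at hv
  exact hv.1.elim (fun h => side_sub 1 x h) (fun h => side_sub 2 x h)

theorem sum_T (g : Pr K → ℕ) (x : K) : ∑ v ∈ TT g x, ex g x v * Real.log (Nv v) =
    ∑ v ∈ side 1 x, g v * Real.log (Nv v) - ∑ v ∈ side 2 x, g v * Real.log (Nv v) := by
  classical
  have h1 : ∑ v ∈ TT g x, ex g x v * Real.log (Nv v) =
      ∑ v ∈ side 1 x ∪ side 2 x, ex g x v * Real.log (Nv v) := by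
    refine Finset.sum_subset (Finset.filter_subset _ _) fun v _ hv => ?_
    rw [ex_out g x v hv]
    simp
  rw [h1, Finset.sum_union (side_disj (by decide)), sub_eq_add_neg, ← Finset.sum_neg_distrib]
  congr 1
  · refine Finset.sum_congr rfl fun v hv => ?_
    unfold ex
    rw [if_pos hv, Int.cast_natCast]
  · refine Finset.sum_congr rfl fun v hv => ?_
    unfold ex
    rw [if_neg (fun h => absurd (side_uniq h hv) (by decide)), if_pos hv]
    push_cast
    ring

/-- the height of the quotient for exponents close to multiples of `E` -/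
theorem height_ka2 (G : GB K h0 C0 g0) {x : K} (hx : Pt x) (g : Pr K → ℕ) (E : ℕ)
    {T ρ L lam Gr : ℝ} {m0 : ℕ} (hρ : 0 ≤ ρ)
    (hg0 : ∀ v, Real.log (Nv v) ≤ T → g v = 0)
    (hg : ∀ i : Fin 3, ∀ v ∈ side i x, T < Real.log (Nv v) →
      |df (Sum.inr v : Pl K) i x - E * (g v * Real.log (Nv v))| ≤ ρ * Real.log (Nv v))
    (hL : rr 1 x + rr 2 x ≤ L) (hl : ∀ i : Fin 3, aw i x + lt T i x ≤ lam)
    (hGr : ∀ v ∈ sp x, (g v : ℝ) ≤ Gr) (hm0 : (TT g x).card ≤ m0) (hGr0 : 0 ≤ Gr) :
    logHeight₁ (qt 1 2 x ^ h0 / mu g0 (TT g x) (ex g x) ^ E) ≤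
      h0 * (2 * ρ * L + 3 * lam) + E * (Module.finrank ℚ K * C0 * (m0 * Gr)) := by
  classical
  have h1 := height_ka G hx (TT g x) (TT_sub g x) (ex g x) (ex_out g x) E
  refine h1.trans ?_
  have hC : 0 ≤ C0 := by linarith [G.C1]
  have h2 : ∑ v ∈ sp x, |df (Sum.inr v : Pl K) 2 x - df (Sum.inr v : Pl K) 1 x +
        E * (ex g x v * Real.log (Nv v))| ≤ ρ * L + (lt T 1 x + lt T 2 x) := by
    rw [sp_union hx, Finset.sum_union, Finset.sum_union (side_disj (by decide))]
    · have e0 : ∑ v ∈ side 0 x, |df (Sum.inr v : Pl K) 2 x - df (Sum.inr v : Pl K) 1 x +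
          E * (ex g x v * Real.log (Nv v))| = 0 := by
        refine Finset.sum_eq_zero fun v hv => ?_
        have n1 : v ∉ side 1 x := fun h => absurd (side_uniq hv h) (by decide)
        have n2 : v ∉ side 2 x := fun h => absurd (side_uniq hv h) (by decide)
        have n3 : ex g x v = 0 := by unfold ex; rw [if_neg n1, if_neg n2]
        rw [df_eq_zero hx n1, df_eq_zero hx n2, n3]
        simp
      have e1 : ∑ v ∈ side 1 x, |df (Sum.inr v : Pl K) 2 x - df (Sum.inr v : Pl K) 1 x +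
          E * (ex g x v * Real.log (Nv v))| = ∑ v ∈ side 1 x,
            |df (Sum.inr v : Pl K) 1 x - E * (g v * Real.log (Nv v))| := by
        refine Finset.sum_congr rfl fun v hv => ?_
        have n2 : v ∉ side 2 x := fun h => absurd (side_uniq hv h) (by decide)
        have n3 : ex g x v = g v := by unfold ex; rw [if_pos hv]
        rw [df_eq_zero hx n2, n3, Int.cast_natCast, ← abs_neg]
        congr 1
        ring
      have e2 : ∑ v ∈ side 2 x, |df (Sum.inr v : Pl K) 2 x - df (Sum.inr v : Pl K) 1 x +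
          E * (ex g x v * Real.log (Nv v))| = ∑ v ∈ side 2 x,
            |df (Sum.inr v : Pl K) 2 x - E * (g v * Real.log (Nv v))| := by
        refine Finset.sum_congr rfl fun v hv => ?_
        have n1 : v ∉ side 1 x := fun h => absurd (side_uniq hv h) (by decide)
        have n3 : ex g x v = -(g v : ℤ) := by unfold ex; rw [if_neg n1, if_pos hv]
        rw [df_eq_zero hx n1, n3]
        push_cast
        congr 1
        ring
      rw [e0, e1, e2]
      have f1 := side_dev hx 1 g E hρ hg0 (hg 1)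
      have f2 := side_dev hx 2 g E hρ hg0 (hg 2)
      have f3 := mul_le_mul_of_nonneg_left hL hρ
      linarith
    · rw [Finset.disjoint_union_left]
      exact ⟨side_disj (by decide), side_disj (by decide)⟩
  have h3 : |E * ∑ v ∈ TT g x, ex g x v * Real.log (Nv v)| ≤ lam + ρ * L := by
    rw [sum_T]
    have f1 := abs_le.1 (side_sumE hx 1 g E hρ hg0 (hg 1))
    have f2 := abs_le.1 (side_sumE hx 2 g E hρ hg0 (hg 2))
    have f3 := mul_le_mul_of_nonneg_left hL hρ
    have a1 := aw_nonneg hx 1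
    have a2 := aw_nonneg hx 2
    have b1 := lt_nonneg hx T 1
    have b2 := lt_nonneg hx T 2
    have c1 := hl 1
    have c2 := hl 2
    rw [abs_le, mul_sub]
    constructor <;> linarith
  have h4 : ∑ v ∈ TT g x, |(ex g x v : ℝ)| ≤ m0 * Gr := by
    calc ∑ v ∈ TT g x, |(ex g x v : ℝ)| ≤ ∑ v ∈ TT g x, Gr := by
          refine Finset.sum_le_sum fun v hv => ?_
          have e1 : |(ex g x v : ℝ)| ≤ g v := by exact_mod_cast ex_abs g x v
          exact e1.trans (hGr v (TT_sub g x hv))
      _ = (TT g x).card * Gr := by rw [Finset.sum_const, nsmul_eq_mul]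
      _ ≤ m0 * Gr := mul_le_mul_of_nonneg_right (by exact_mod_cast hm0) hGr0
  have h5 : (0 : ℝ) ≤ h0 := Nat.cast_nonneg _
  have g1 := mul_le_mul_of_nonneg_left h2 h5
  have g2 := mul_le_mul_of_nonneg_left h3 h5
  have g3 : (E : ℝ) * (Module.finrank ℚ K * C0 * ∑ v ∈ TT g x, |(ex g x v : ℝ)|) ≤
      E * (Module.finrank ℚ K * C0 * (m0 * Gr)) :=
    mul_le_mul_of_nonneg_left (mul_le_mul_of_nonneg_left h4 (by positivity)) (Nat.cast_nonneg _)
  have g4 : (h0 : ℝ) * (aw 1 x + aw 2 x + (lt T 1 x + lt T 2 x)) ≤ h0 * (2 * lam) :=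
    mul_le_mul_of_nonneg_left (by linarith [hl 1, hl 2]) h5
  have e5 : (h0 : ℝ) * (2 * ρ * L + 3 * lam) = h0 * (ρ * L) + h0 * (2 * lam) + h0 * (lam + ρ * L) := by
    ring
  have e6 : (h0 : ℝ) * (ρ * L + (lt T 1 x + lt T 2 x)) + h0 * (aw 1 x + aw 2 x) =
      h0 * (ρ * L) + h0 * (aw 1 x + aw 2 x + (lt T 1 x + lt T 2 x)) := by ring
  linarith

/-- the height of the product of generators -/
theorem height_mm (G : GB K h0 C0 g0) {x : K} (g : Pr K → ℕ) {L Gr : ℝ} {m0 : ℕ}
    (hL : ∑ v ∈ sp x, Real.log (Nv v) ≤ L)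
    (hGr : ∀ v ∈ sp x, (g v : ℝ) ≤ Gr) (hm0 : (TT g x).card ≤ m0) (hGr0 : 0 ≤ Gr) :
    logHeight₁ (mu g0 (TT g x) (ex g x)) ≤ Gr * (h0 * L + m0 * (Module.finrank ℚ K * C0)) := by
  have hC : 0 ≤ C0 := by linarith [G.C1]
  have hc : (0 : ℝ) ≤ Module.finrank ℚ K * C0 := by positivity
  refine (G.height_mu _ _).trans ?_
  calc ∑ v ∈ TT g x, |(ex g x v : ℝ)| * (h0 * Real.log (Nv v) + Module.finrank ℚ K * C0) ≤
        ∑ v ∈ TT g x, Gr * (h0 * Real.log (Nv v) + Module.finrank ℚ K * C0) := by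
        refine Finset.sum_le_sum fun v hv => ?_
        have e1 : |(ex g x v : ℝ)| ≤ g v := by exact_mod_cast ex_abs g x v
        have e2 := (log_Nv_pos' v).le
        exact mul_le_mul_of_nonneg_right (e1.trans (hGr v (TT_sub g x hv))) (by positivity)
    _ = Gr * (h0 * ∑ v ∈ TT g x, Real.log (Nv v) + (TT g x).card * (Module.finrank ℚ K * C0)) := by
        rw [← Finset.mul_sum, Finset.sum_add_distrib, Finset.mul_sum, Finset.sum_const, nsmul_eq_mul]
    _ ≤ _ := by
        refine mul_le_mul_of_nonneg_left (add_le_add ?_ ?_) hGr0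
        · refine mul_le_mul_of_nonneg_left (le_trans ?_ hL) (Nat.cast_nonneg _)
          exact Finset.sum_le_sum_of_subset_of_nonneg (TT_sub g x) fun v _ _ => (log_Nv_pos' v).le
        · exact mul_le_mul_of_nonneg_right (by exact_mod_cast hm0) hc

end Pool.Agent.Y180.AK
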