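import Pool.Agent.Y180.AK.OneB

/-!
# Points with few large primes: the structure theorem (job AK-J6)
-/

set_option autoImplicit false

namespace Pool.Agent.Y180.AK

open Finset NumberField IsDedekindDomain Height Pool.Agent.H691R3 Pool.Agent.TH876.Loc
open Pool.Agent.TH876.KR Pool.Agent.Y728.AK
open Pool.Agent.Y911.AA (dirichlet_nat grid grid_spec)

variable {K : Type} [Field K] [NumberField K] {h0 : ℕ} {C0 : ℝ} {g0 : Pr K → 𝓞 K}

/-- the data of a point -/
structure DataO (θ κ L : ℝ) (x : K) : Prop where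
  pt : Pt x
  sL : ∑ v ∈ sp x, Real.log (Nv v) ≤ L
  r0 : rr 0 x ≤ 2 / 5 * L
  light : ∀ i : Fin 3, aw i x + lt (θ * L) i x ≤ κ * hgt x

theorem card_main {θ L : ℝ} {m0 : ℕ} (hL : 0 < L) (hθ : 0 < θ)
    (hm0 : 1 ≤ θ * m0) {P : Finset (Pr K)} (hP : ∑ v ∈ P, Real.log (Nv v) ≤ L)
    (hP0 : ∀ v ∈ P, θ * L < Real.log (Nv v)) : P.card ≤ m0 := by
  have h1 : (P.card : ℝ) * (θ * L) ≤ L := by
    calc (P.card : ℝ) * (θ * L) = ∑ _v ∈ P, θ * L := by
          rw [Finset.sum_const, nsmul_eq_mul]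
      _ ≤ ∑ v ∈ P, Real.log (Nv v) := Finset.sum_le_sum fun v hv => (hP0 v hv).le
      _ ≤ L := hP
  have h2 : (P.card : ℝ) ≤ m0 := by
    by_contra hcon
    rw [not_le] at hcon
    have h3 : (m0 : ℝ) * (θ * L) < P.card * (θ * L) :=
      mul_lt_mul_of_pos_right hcon (by positivity)
    have h4 : 1 * L ≤ θ * m0 * L := mul_le_mul_of_nonneg_right hm0 hL.le
    linarith
  exact_mod_cast h2

theorem df_le_hgt {x : K} (hx : Pt x) {v : Pr K} {i : Fin 3} (hv : v ∈ side i x) :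
    df (Sum.inr v : Pl K) i x ≤ hgt x := by
  have h1 := side_sum hx i
  have h2 := aw_nonneg hx i
  have h3 := Finset.single_le_sum (f := fun v => df (Sum.inr v : Pl K) i x)
    (fun u _ => df_nonneg (Sum.inr u : Pl K) i hx) hv
  linarith

/-- the class of a point -/
structure Cl (g0 : Pr K → 𝓞 K) (h0 : ℕ) (θ η L : ℝ) (m0 N Gn t s : ℕ) (p : Pr K) (x : K)
    (T : Finset (Pr K)) (n : Pr K → ℤ) : Prop where
  cT : T.card ≤ m0
  nT : ∀ v ∈ T, n v ≠ 0 ∧ |n v| ≤ Gn
  pT : p ∉ T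
  hmu : logHeight₁ (mu g0 T n) ≤ 6 * h0 * t / θ * L
  hka : logHeight₁ (qt 1 2 x ^ h0 / mu g0 T n ^ grid η s) ≤ 12 * h0 / N * grid η s * L
  fvp : fv p (qt 1 2 x - 1) ≤
    Real.exp (-(⌊(grid η s : ℝ) * t * L / (2 * m0 * Real.log (Nv p))⌋₊ * Real.log (Nv p)))

/-- the approximation of the exponents -/
theorem exps {θ κ η L : ℝ} {m0 N : ℕ} {x : K} (D : DataO θ κ L x) (hL : 0 < L)
    (hθ : 0 < θ) (hθ1 : θ ≤ 1) (hm0 : 1 ≤ θ * m0) (hN : 2 ≤ N) (hη : 0 < η) (hη4 : η ≤ 1 / 4)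
    (hη2 : 6 * η * N ^ m0 / θ ≤ 1 / N) (hH : (N : ℝ) ^ m0 / η ≤ hgt x / L) :
    ∃ (t s : ℕ) (g : Pr K → ℕ), 1 ≤ t ∧ t ≤ N ^ m0 ∧ (s : ℝ) ≤ 2 / η * Real.log (hgt x / L) ∧
      (grid η s : ℝ) * t * L ≤ hgt x ∧ hgt x / L ≤ 2 * t * grid η s ∧
      (∀ v, Real.log (Nv v) ≤ θ * L → g v = 0) ∧ (∀ v ∈ sp x, (g v : ℝ) ≤ 3 * t / θ) ∧
      ∀ i : Fin 3, ∀ v ∈ side i x, θ * L < Real.log (Nv v) →
        |df (Sum.inr v : Pl K) i x - (grid η s : ℕ) * (g v * Real.log (Nv v))| ≤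
          4 / N * grid η s * Real.log (Nv v) := by
  classical
  have hx := D.pt
  obtain ⟨H, hHd⟩ : ∃ H, H = hgt x := ⟨_, rfl⟩
  rw [← hHd] at hH ⊢
  have hN0 : (0 : ℝ) < N := by exact_mod_cast (by omega : 0 < N)
  have hN2 : (1 : ℝ) / N ≤ 1 / 2 :=
    div_le_div_of_nonneg_left (by norm_num) (by norm_num) (by exact_mod_cast hN)
  have hNm : (1 : ℝ) ≤ (N : ℝ) ^ m0 := one_le_pow₀ (by exact_mod_cast (by omega : 1 ≤ N))
  obtain ⟨Z, hZ⟩ : ∃ Z, Z = H / L := ⟨_, rfl⟩
  rw [← hZ] at hH ⊢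
  have hZ0 : 0 < Z := lt_of_lt_of_le (by positivity) hH
  have hHZ : H = Z * L := by rw [hZ]; field_simp
  obtain ⟨S, hS⟩ : ∃ S, S = (sp x).filter (fun v => θ * L < Real.log (Nv v)) := ⟨_, rfl⟩
  have hSP : S ⊆ sp x := by rw [hS]; exact Finset.filter_subset _ _
  have hScard : S.card ≤ m0 := by
    refine card_main hL hθ hm0 ?_ ?_
    · exact (Finset.sum_le_sum_of_subset_of_nonneg hSP fun v _ _ => (log_Nv_pos' v).le).trans D.sL
    · intro q hq
      rw [hS, Finset.mem_filter] at hq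
      exact hq.2
  obtain ⟨e', he'⟩ : ∃ e' : Pr K → ℝ, e' = fun v => gd (Sum.inr v : Pl K) x / Real.log (Nv v) :=
    ⟨_, rfl⟩
  have he0 : ∀ v, 0 ≤ e' v := by
    intro v
    rw [he']
    exact div_nonneg (gd_nonneg _ hx) (log_Nv_pos' v).le
  have hvS : ∀ v ∈ S, e' v / Z ≤ 1 / θ := by
    intro v hv
    have hvP := hSP hv
    rw [hS, Finset.mem_filter] at hv
    obtain ⟨i, hi⟩ := (mem_sp_iff hx v).1 hvP
    have h1 := df_le_hgt hx hi
    rw [← gd_eq hx hi, ← hHd] at h1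
    have hlv := log_Nv_pos' v
    rw [he']
    simp only
    rw [div_div, div_le_div_iff₀ (by positivity) hθ, one_mul]
    have h2 : θ * L * Z ≤ Real.log (Nv v) * Z := mul_le_mul_of_nonneg_right hv.2.le hZ0.le
    have h3 : gd (Sum.inr v : Pl K) x * θ ≤ H * θ := mul_le_mul_of_nonneg_right h1 hθ.le
    rw [hHZ] at h3
    nlinarith
  obtain ⟨t, ht1, htN, g', hg'⟩ := dirichlet_nat S (fun v => e' v / Z) hScard hN
    (fun v _ => div_nonneg (he0 v) hZ0.le)
  obtain ⟨g, hg⟩ : ∃ g : Pr K → ℕ, g = fun v : Pr K => if θ * L < Real.log (Nv v) then g' v else 0 :=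
    ⟨_, rfl⟩
  have hglight : ∀ v : Pr K, Real.log (Nv v) ≤ θ * L → g v = 0 := by
    intro v hv
    rw [hg]
    exact if_neg (not_lt.2 hv)
  have hgmain : ∀ v : Pr K, θ * L < Real.log (Nv v) → g v = g' v := by
    intro v hv
    rw [hg]
    exact if_pos hv
  have ht0 : (1 : ℝ) ≤ t := by exact_mod_cast ht1
  have htN' : (t : ℝ) ≤ (N : ℝ) ^ m0 := by exact_mod_cast htN
  have htpos : (0 : ℝ) < t := by linarith
  obtain ⟨e, he⟩ : ∃ e, e = Z / t := ⟨_, rfl⟩
  have hepos : 0 < e := by rw [he]; positivity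
  have hZe : Z = e * t := by rw [he]; field_simp
  have he1 : 1 ≤ η * e := by
    rw [he, ← mul_div_assoc, le_div_iff₀ htpos]
    rw [div_le_iff₀ hη] at hH
    linarith
  obtain ⟨s, hs1, hs2, hs3⟩ := grid_spec hη (by linarith) he1
  obtain ⟨E, hE⟩ : ∃ E, E = grid η s := ⟨_, rfl⟩
  rw [← hE] at hs1 hs2
  have hE2 : e ≤ 2 * E := by
    have := mul_le_mul_of_nonneg_right hη4 hepos.le
    linarith
  have hE0 : (0 : ℝ) < E := by linarith
  have hgS : ∀ v ∈ S, (g v : ℝ) ≤ 3 * t / θ ∧ |e' v - E * g v| ≤ 4 / N * E := by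
    intro q hq
    have h1 := hg' q hq
    have h2 := hvS q hq
    have hq' := hq
    rw [hS, Finset.mem_filter] at hq'
    rw [← hgmain q hq'.2] at h1
    have h3 := (abs_le.1 h1)
    have h4 : (g q : ℝ) ≤ 3 * t / θ := by
      have h5 : (t : ℝ) * (e' q / Z) ≤ t * (1 / θ) := mul_le_mul_of_nonneg_left h2 htpos.le
      have h6 : (1 : ℝ) / 2 ≤ t / θ := by
        rw [div_le_div_iff₀ (by norm_num) hθ]
        linarith
      have h7 : 3 * (t : ℝ) / θ = t * (1 / θ) + 2 * (t / θ) := by ring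
      rw [h7]
      linarith [h3.1]
    refine ⟨h4, ?_⟩
    have h8 : |e' q - e * g q| ≤ e / N := by
      have : e' q - e * g q = e * (t * (e' q / Z) - g q) := by
        rw [hZe]
        field_simp
      rw [this, abs_mul, abs_of_pos hepos, div_eq_mul_one_div e]
      exact mul_le_mul_of_nonneg_left h1 hepos.le
    have h9 : |(e : ℝ) * g q - E * g q| ≤ e / N := by
      rw [← sub_mul, abs_mul, abs_of_nonneg (by linarith : 0 ≤ e - E),
        abs_of_nonneg (Nat.cast_nonneg (g q))]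
      have h10 : e - E ≤ 2 * η * e := by linarith
      calc (e - E) * (g q : ℝ) ≤ (2 * η * e) * (3 * t / θ) :=
            mul_le_mul h10 h4 (Nat.cast_nonneg _) (by positivity)
        _ = e * (6 * η * t / θ) := by ring
        _ ≤ e * (6 * η * N ^ m0 / θ) := by
            apply mul_le_mul_of_nonneg_left _ hepos.le
            rw [div_le_div_iff_of_pos_right hθ]
            exact mul_le_mul_of_nonneg_left htN' (by positivity)
        _ ≤ e * (1 / N) := mul_le_mul_of_nonneg_left hη2 hepos.le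
        _ = e / N := by ring
    calc |e' q - E * g q| = |(e' q - e * g q) + (e * g q - E * g q)| := by congr 1; ring
      _ ≤ |e' q - e * g q| + |(e : ℝ) * g q - E * g q| := abs_add_le _ _
      _ ≤ e / N + e / N := add_le_add h8 h9
      _ = 2 * e / N := by ring
      _ ≤ 2 * (2 * E) / N := by
          rw [div_le_div_iff_of_pos_right hN0]
          linarith
      _ = 4 / N * E := by ring
  refine ⟨t, s, g, ht1, htN, ?_, ?_, ?_, hglight, ?_, ?_⟩
  · refine hs3.trans (mul_le_mul_of_nonneg_left ?_ (by positivity))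
    apply Real.log_le_log hepos
    rw [he]
    exact div_le_self hZ0.le ht0
  · rw [← hE, hHZ, hZe]
    have : (E : ℝ) * t * L = E * (t * L) := by ring
    rw [this, mul_assoc e]
    exact mul_le_mul_of_nonneg_right hs1 (by positivity)
  · rw [← hE, hZe]
    have := mul_le_mul_of_nonneg_right hE2 htpos.le
    linarith
  · intro v hv
    rcases le_or_gt (Real.log (Nv v)) (θ * L) with h | h
    · rw [hglight v h, Nat.cast_zero]
      positivity
    · exact (hgS v (by rw [hS, Finset.mem_filter]; exact ⟨hv, h⟩)).1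
  · intro i v hv h
    have hlv := log_Nv_pos' v
    have h1 := (hgS v (by rw [hS, Finset.mem_filter]; exact ⟨side_sub i x hv, h⟩)).2
    rw [← hE]
    have h2 : df (Sum.inr v : Pl K) i x - E * (g v * Real.log (Nv v)) =
        (e' v - E * g v) * Real.log (Nv v) := by
      rw [he']
      simp only
      rw [gd_eq hx hv]
      field_simp
    rw [h2, abs_mul, abs_of_pos hlv]
    exact mul_le_mul_of_nonneg_right h1 hlv.le

/-- a large prime of the side `0` with large weight -/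
theorem exists_p {θ κ L : ℝ} {m0 : ℕ} {x : K} (D : DataO θ κ L x) (hL : 0 < L)
    (hθ : 0 < θ) (hm0 : 1 ≤ θ * m0) (hκ : κ ≤ 1 / 2) (hH : 0 < hgt x) :
    ∃ p ∈ side 0 x, θ * L < Real.log (Nv p) ∧ Real.log (Nv p) ≤ 2 / 5 * L ∧
      hgt x / (2 * m0) ≤ df (Sum.inr p : Pl K) 0 x := by
  classical
  have hx := D.pt
  have hm0' : (0 : ℝ) < m0 := (mul_pos_iff_of_pos_left hθ).1 (by linarith)
  have hmain : hgt x / 2 ≤ ∑ v ∈ (side 0 x).filter (fun v => ¬ Real.log (Nv v) ≤ θ * L),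
      df (Sum.inr v : Pl K) 0 x := by
    have h1 := side_sum hx 0
    have h2 := D.light 0
    rw [← Finset.sum_filter_add_sum_filter_not (side 0 x) (fun v => Real.log (Nv v) ≤ θ * L)] at h1
    have h3 : κ * hgt x ≤ 1 / 2 * hgt x := mul_le_mul_of_nonneg_right hκ hH.le
    have h4 : ∑ v ∈ (side 0 x).filter (fun v => Real.log (Nv v) ≤ θ * L),
      df (Sum.inr v : Pl K) 0 x = lt (θ * L) 0 x := by
      unfold lt
      refine Finset.sum_congr (by congr) fun _ _ => rfl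
    rw [h4] at h1
    linarith
  have hcard : ((side 0 x).filter (fun v => ¬ Real.log (Nv v) ≤ θ * L)).card ≤ m0 := by
    refine card_main hL hθ hm0 ?_ ?_
    · refine (Finset.sum_le_sum_of_subset_of_nonneg ?_ fun v _ _ => (log_Nv_pos' v).le).trans D.sL
      exact (Finset.filter_subset _ _).trans (side_sub 0 x)
    · intro v hv
      rw [Finset.mem_filter, not_le] at hv
      exact hv.2
  obtain ⟨p, hpF, hpH⟩ : ∃ p ∈ (side 0 x).filter (fun v => ¬ Real.log (Nv v) ≤ θ * L),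
      hgt x / (2 * m0) ≤ df (Sum.inr p : Pl K) 0 x := by
    by_contra hcon0
    have hcon : ∀ p ∈ (side 0 x).filter (fun v => ¬ Real.log (Nv v) ≤ θ * L),
        df (Sum.inr p : Pl K) 0 x < hgt x / (2 * m0) := by
      intro p hp
      by_contra h
      exact hcon0 ⟨p, hp, not_lt.1 h⟩
    rcases ((side 0 x).filter (fun v => ¬ Real.log (Nv v) ≤ θ * L)).eq_empty_or_nonempty with h0 | h0
    · rw [h0, Finset.sum_empty] at hmain
      linarith
    · have h1 := Finset.sum_lt_sum_of_nonempty h0 hcon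
      rw [Finset.sum_const, nsmul_eq_mul] at h1
      have h2 : (((side 0 x).filter (fun v => ¬ Real.log (Nv v) ≤ θ * L)).card : ℝ) *
          (hgt x / (2 * m0)) ≤ m0 * (hgt x / (2 * m0)) :=
        mul_le_mul_of_nonneg_right (by exact_mod_cast hcard) (by positivity)
      have h3 : (m0 : ℝ) * (hgt x / (2 * m0)) = hgt x / 2 := by field_simp
      linarith
  rw [Finset.mem_filter, not_le] at hpF
  refine ⟨p, hpF.1, hpF.2, ?_, hpH⟩
  refine le_trans ?_ D.r0
  exact Finset.single_le_sum (f := fun v => Real.log (Nv v))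
    (fun u _ => (log_Nv_pos' u).le) hpF.1

/-- **Structure of the points with few large primes.** -/
theorem str_one (G : GB K h0 C0 g0) {θ κ η L : ℝ} {m0 N Gn : ℕ} {x : K} (D : DataO θ κ L x)
    (hL : 0 < L) (hθ : 0 < θ) (hθ1 : θ ≤ 1) (hm0 : 1 ≤ θ * m0) (hN : 2 ≤ N) (hη : 0 < η)
    (hη4 : η ≤ 1 / 4) (hη2 : 6 * η * N ^ m0 / θ ≤ 1 / N) (hκ : 2 * κ * N ^ m0 ≤ 1 / N) (hκ0 : 0 ≤ κ)
    (hG : 3 * (N : ℝ) ^ m0 / θ ≤ Gn) (hH : (N : ℝ) ^ m0 / η ≤ hgt x / L)
    (hLC : N * (Module.finrank ℚ K * C0 * (m0 * Gn)) ≤ L) :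
    ∃ (t s : ℕ) (p : Pr K), 1 ≤ t ∧ t ≤ N ^ m0 ∧ (s : ℝ) ≤ 2 / η * Real.log (hgt x / L) ∧
      p ∈ sp x ∧ θ * L < Real.log (Nv p) ∧ Real.log (Nv p) ≤ 2 / 5 * L ∧
      hgt x / L ≤ 2 * t * grid η s ∧
      ∃ T n, Cl g0 h0 θ η L m0 N Gn t s p x T n := by
  classical
  have hx := D.pt
  have hN0 : (0 : ℝ) < N := by exact_mod_cast (by omega : 0 < N)
  have hN1 : (1 : ℝ) ≤ N := by exact_mod_cast (by omega : 1 ≤ N)
  have hN2 : (1 : ℝ) / N ≤ 1 / 2 :=
    div_le_div_of_nonneg_left (by norm_num) (by norm_num) (by exact_mod_cast hN)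
  have hNm : (1 : ℝ) ≤ (N : ℝ) ^ m0 := one_le_pow₀ hN1
  have hH0 : 0 < hgt x := by
    have h1 : 0 < hgt x / L := lt_of_lt_of_le (by positivity) hH
    exact (div_pos_iff_of_pos_right hL).1 h1
  have hκ1 : κ ≤ 1 / 4 := by
    have h1 : 2 * κ * 1 ≤ 2 * κ * (N : ℝ) ^ m0 := mul_le_mul_of_nonneg_left hNm (by positivity)
    linarith
  have hm0' : (0 : ℝ) < m0 := (mul_pos_iff_of_pos_left hθ).1 (by linarith)
  have hh0 : (1 : ℝ) ≤ h0 := by exact_mod_cast G.h1
  have hC : (1 : ℝ) ≤ C0 := G.C1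
  have hd1 : (1 : ℝ) ≤ Module.finrank ℚ K := by exact_mod_cast Module.finrank_pos
  obtain ⟨t, s, g, ht1, htN, hs, hEt, hZ, hg0, hgr, hgm⟩ := exps D hL hθ hθ1 hm0 hN hη hη4 hη2 hH
  obtain ⟨p, hp0, hp1, hp2, hp3⟩ := exists_p D hL hθ hm0 (by linarith) hH0
  obtain ⟨E, hE⟩ : ∃ E, E = grid η s := ⟨_, rfl⟩
  have ht0 : (1 : ℝ) ≤ t := by exact_mod_cast ht1
  have htpos : (0 : ℝ) < t := by linarith
  have htN' : (t : ℝ) ≤ (N : ℝ) ^ m0 := by exact_mod_cast htN
  have hlp := log_Nv_pos' p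
  have hGr0 : (0 : ℝ) ≤ 3 * t / θ := by positivity
  have hcT : (TT g x).card ≤ m0 := by
    refine card_main hL hθ hm0 ?_ ?_
    · exact (Finset.sum_le_sum_of_subset_of_nonneg (TT_sub g x) fun v _ _ =>
        (log_Nv_pos' v).le).trans D.sL
    · intro v hv
      unfold TT at hv
      rw [Finset.mem_filter] at hv
      by_contra h
      exact hv.2 (hg0 v (not_lt.1 h))
  have hGn : 3 * (t : ℝ) / θ ≤ Gn := by
    refine le_trans ?_ hG
    rw [div_le_div_iff_of_pos_right hθ]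
    linarith
  have hGn0 : (0 : ℝ) ≤ Gn := Nat.cast_nonneg _
  have hGn1 : (1 : ℝ) ≤ Gn := by
    refine le_trans ?_ hGn
    rw [le_div_iff₀ hθ]
    linarith
  refine ⟨t, s, p, ht1, htN, hs, side_sub 0 x hp0, hp1, hp2, hZ, TT g x, ex g x,
    ⟨hcT, ?_, ?_, ?_, ?_, ?_⟩⟩
  · intro v hv
    refine ⟨ex_ne g x v hv, (ex_abs g x v).trans ?_⟩
    have h1 := (hgr v (TT_sub g x hv)).trans hGn
    exact_mod_cast h1
  · intro h
    unfold TT at h
    rw [Finset.mem_filter, Finset.mem_union] at h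
    exact h.1.elim (fun h => absurd (side_uniq h hp0) (by decide))
      (fun h => absurd (side_uniq h hp0) (by decide))
  · refine (height_mm G g D.sL hgr hcT hGr0).trans ?_
    have h1 : (m0 : ℝ) * (Module.finrank ℚ K * C0) ≤ h0 * L := by
      calc (m0 : ℝ) * (Module.finrank ℚ K * C0) = 1 * (Module.finrank ℚ K * C0 * (m0 * 1)) := by ring
        _ ≤ N * (Module.finrank ℚ K * C0 * (m0 * Gn)) := by
            apply mul_le_mul hN1 _ (by positivity) (by positivity)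
            apply mul_le_mul_of_nonneg_left _ (by positivity)
            exact mul_le_mul_of_nonneg_left hGn1 hm0'.le
        _ ≤ L := hLC
        _ ≤ h0 * L := le_mul_of_one_le_left hL.le hh0
    calc 3 * (t : ℝ) / θ * (h0 * L + m0 * (Module.finrank ℚ K * C0)) ≤
          3 * (t : ℝ) / θ * (h0 * L + h0 * L) :=
          mul_le_mul_of_nonneg_left (by linarith) hGr0
      _ = 6 * h0 * t / θ * L := by ring
  · have hκH : κ * hgt x ≤ 1 / N * E * L := by
      have hZ' : hgt x ≤ 2 * t * E * L := by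
        rw [hE]
        rwa [div_le_iff₀ hL] at hZ
      calc κ * hgt x ≤ κ * (2 * t * E * L) := mul_le_mul_of_nonneg_left hZ' hκ0
        _ = (2 * κ * t) * (E * L) := by ring
        _ ≤ (2 * κ * N ^ m0) * (E * L) := by
            apply mul_le_mul_of_nonneg_right _ (by positivity)
            exact mul_le_mul_of_nonneg_left htN' (by positivity)
        _ ≤ 1 / N * (E * L) := mul_le_mul_of_nonneg_right hκ (by positivity)
        _ = _ := by ring
    have hrr : rr 1 x + rr 2 x ≤ L := by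
      have h1 := rr_sum hx
      have h2 := rr_nonneg 0 x
      have h3 := D.sL
      linarith
    have h1 := height_ka2 G hx g (grid η s) (T := θ * L) (ρ := 4 / N * grid η s) (L := L)
      (lam := κ * hgt x) (Gr := Gn) (m0 := m0) (by positivity) hg0 hgm hrr D.light
      (fun v hv => (hgr v hv).trans hGn) hcT hGn0
    refine h1.trans ?_
    rw [← hE]
    have h2 : (Module.finrank ℚ K * C0 * (m0 * Gn) : ℝ) ≤ 1 / N * L := by
      rw [one_div, ← div_eq_inv_mul, le_div_iff₀ hN0]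
      linarith
    have h3 : (E : ℝ) * (Module.finrank ℚ K * C0 * (m0 * Gn)) ≤ E * (1 / N * L) :=
      mul_le_mul_of_nonneg_left h2 (Nat.cast_nonneg _)
    have h4 : (E : ℝ) * (1 / N * L) ≤ h0 * (E * (1 / N * L)) :=
      le_mul_of_one_le_left (by positivity) hh0
    have h5 : (h0 : ℝ) * (3 * (κ * hgt x)) ≤ h0 * (3 * (1 / N * E * L)) :=
      mul_le_mul_of_nonneg_left (by linarith) (Nat.cast_nonneg _)
    have e1 : 12 * (h0 : ℝ) / N * E * L = h0 * (2 * (4 / N * E) * L) + h0 * (3 * (1 / N * E * L)) +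
        h0 * (E * (1 / N * L)) := by ring
    rw [e1, mul_add]
    linarith
  · have hn2 : p ∉ side 2 x := fun h => absurd (side_uniq h hp0) (by decide)
    have hne : qt 1 2 x - 1 ≠ 0 := by
      rw [qt_sub hx (A := 0) (by decide) (by decide) (by decide)]
      exact div_ne_zero (L_ne hx _) (L_ne hx _)
    have h1 := lg_qt_sub hx (A := 0) (B := 1) (C := 2) (by decide) (by decide) (by decide)
      (Sum.inr p : Pl K)
    rw [← log_fv_eq, df_eq_zero hx hn2, zero_sub] at h1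
    rw [← Real.log_le_iff_le_exp (Pool.Agent.TH876.KR.fv_pos p hne), h1, neg_le_neg_iff]
    refine le_trans ?_ hp3
    have h2 := Nat.floor_le (show 0 ≤ (grid η s : ℝ) * t * L / (2 * m0 * Real.log (Nv p)) by
      positivity)
    rw [le_div_iff₀ (by positivity)] at h2
    rw [le_div_iff₀ (by positivity)]
    linarith

end Pool.Agent.Y180.AK
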