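import Pool.Agent.Y180.AK.OneC
import Pool.Agent.Y911.AA.ClsOne

/-!
# Points with few large primes: the number of points in a class (job AK-J6)
-/

set_option autoImplicit false

namespace Pool.Agent.Y180.AK

open Finset NumberField IsDedekindDomain Height Pool.Agent.H691R3 Pool.Agent.TH876.Loc
open Pool.Agent.TH876.KR Pool.Agent.Y728.AK
open Pool.Agent.Y911.AA (grid lt_choose)

variable {K : Type} [Field K] [NumberField K] {h0 : ℕ} {C0 : ℝ} {g0 : Pr K → 𝓞 K}

/-- **The number of points in a class.** -/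
theorem class_one (G : GB K h0 C0 g0) (hc : SunFin K h0 g0) : ∃ c1 : ℝ, 1 ≤ c1 ∧
    ∀ {θ η L : ℝ} {m0 N Gn t s k : ℕ} {p : Pr K}, 0 < θ → θ ≤ 1 → 1 ≤ m0 → 1 ≤ k → 1 ≤ N →
    24 * c1 * k * h0 ≤ θ * N → 576 * c1 * k ^ 2 * h0 ^ 2 * m0 ≤ θ ^ 2 * N → 1 ≤ t →
    (N : ℝ) + 2 * m0 ≤ grid η s → θ * L < Real.log (Nv p) → Real.log (Nv p) ≤ 2 / 5 * L →
    N * c1 ≤ θ * L → ∀ F : Finset K,
    (∀ x ∈ F, Pt x ∧ ∃ T n, Cl g0 h0 θ η L m0 N Gn t s p x T n) →
    F.card ≤ ((k + ⌊(k : ℝ) * Real.exp (Real.log (Nv p) / k)⌋₊ + 1) ^ m0 * m0.factorial) *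
      (2 * Gn + 1) ^ m0 := by
  classical
  obtain ⟨c1, hc1, hS⟩ := hc
  refine ⟨c1, hc1, ?_⟩
  intro θ η L m0 N Gn t s k p hθ hθ1 hm0 hk hN hN1 hN2 ht hEN hp1 hp2 hL1 F hF
  have hF' : ∀ x ∈ F, ∃ T n, Cl g0 h0 θ η L m0 N Gn t s p x T n := fun x hx => (hF x hx).2
  choose! T n hC using hF'
  have hk1 : (1 : ℝ) ≤ k := by exact_mod_cast hk
  have hm1 : (1 : ℝ) ≤ m0 := by exact_mod_cast hm0
  have ht1 : (1 : ℝ) ≤ t := by exact_mod_cast ht
  have hN0 : (1 : ℝ) ≤ N := by exact_mod_cast hN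
  have hNp : (0 : ℝ) < N := by linarith
  have hh0 : (1 : ℝ) ≤ h0 := by exact_mod_cast G.h1
  obtain ⟨g, hg⟩ : ∃ g, g = Real.log (Nv p) := ⟨_, rfl⟩
  obtain ⟨E, hE⟩ : ∃ E, E = grid η s := ⟨_, rfl⟩
  rw [← hE] at hEN
  rw [← hg] at hp1 hp2
  have hE1 : (1 : ℝ) ≤ E := by linarith
  have hE0 : (0 : ℝ) < E := by linarith
  have hEm : (m0 : ℝ) ≤ E := by linarith
  have hENr : (N : ℝ) ≤ E := by linarith
  have hθL : 0 < θ * L := lt_of_lt_of_le (by positivity) hL1
  have hL0 : 0 < L := (mul_pos_iff_of_pos_left hθ).1 hθL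
  have hg0 : 0 < g := by linarith
  have hc0 : 0 < c1 := by linarith
  -- `x`
  obtain ⟨z, hz⟩ : ∃ z, z = (E : ℝ) * t * L / (2 * m0 * g) := ⟨_, rfl⟩
  obtain ⟨Y, hY⟩ : ∃ Y, Y = ⌊z⌋₊ := ⟨_, rfl⟩
  have hz1 : 1 ≤ z := by
    rw [hz, le_div_iff₀ (by positivity)]
    calc 1 * (2 * m0 * g) ≤ 2 * m0 * (2 / 5 * L) := by
          rw [one_mul]
          exact mul_le_mul_of_nonneg_left hp2 (by positivity)
      _ = (4 / 5) * (m0 * 1 * L) := by ring
      _ ≤ 1 * (E * t * L) := by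
          apply mul_le_mul (by norm_num) _ (by positivity) (by norm_num)
          apply mul_le_mul_of_nonneg_right _ hL0.le
          exact mul_le_mul hEm ht1 (by norm_num) hE0.le
      _ = _ := one_mul _
  have hYz : z / 2 ≤ Y := by
    have h1 : z < Y + 1 := by rw [hY]; exact Nat.lt_floor_add_one _
    have h2 : (1 : ℝ) ≤ Y := by
      have : 1 ≤ Y := by rw [hY]; exact Nat.le_floor (by exact_mod_cast hz1)
      exact_mod_cast this
    linarith
  have hzg : z * g = E * t * L / (2 * m0) := by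
    rw [hz]
    field_simp
  obtain ⟨h, hh⟩ : ∃ h : ℝ, h = 6 * h0 * t / θ * L := ⟨_, rfl⟩
  obtain ⟨ν, hν⟩ : ∃ ν : ℝ, ν = 24 * h0 / N * E * L := ⟨_, rfl⟩
  have hq1 : ∀ x ∈ F, qt 1 2 x ≠ 0 := fun x hx => qt_ne (hF x hx).1 1 2
  have hh6 : 6 * L ≤ h := by
    rw [hh]
    apply mul_le_mul_of_nonneg_right _ hL0.le
    rw [le_div_iff₀ hθ]
    have : (1 : ℝ) * 1 ≤ h0 * t := mul_le_mul hh0 ht1 (by norm_num) (by linarith)
    nlinarith
  have hν1 : 24 * L ≤ ν := by
    rw [hν]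
    apply mul_le_mul_of_nonneg_right _ hL0.le
    rw [div_mul_eq_mul_div, le_div_iff₀ hNp]
    have : (1 : ℝ) * N ≤ h0 * E := mul_le_mul hh0 hENr (by linarith) (by linarith)
    nlinarith
  have hkE : (k : ℝ) * ν * N = 24 * k * h0 * (E * L) := by
    rw [hν]
    field_simp
  have hexp : Real.exp g = ((Ideal.absNorm p.asIdeal : ℕ) : ℝ) := by
    rw [hg, Real.exp_log (Nv_pos p)]
    rfl
  have hpn : 1 ≤ Ideal.absNorm p.asIdeal := by
    have h1 : (1 : ℝ) ≤ ((Ideal.absNorm p.asIdeal : ℕ) : ℝ) := by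
      have := one_le_Nv p
      exact this
    exact_mod_cast h1
  have hgk : Real.log ((Ideal.absNorm p.asIdeal : ℕ) : ℝ) = g := by rw [hg]; rfl
  refine hS F {p} (fun _ => 1) (fun x => qt 1 2 x) T n m0 Gn k
    (k + ⌊(k : ℝ) * Real.exp (Real.log (Nv p) / k)⌋₊ + 1) g h ν E Y (fun _ _ => le_rfl) ?_ ?_ hq1
    (fun x hx => (hC x hx).cT) (fun x hx => (hC x hx).nT) ?_ ?_ ?_ ?_ ?_ hk (by omega) ?_ ?_ ?_ ?_
    ?_ ?_
  · rw [Finset.sum_singleton, Nat.cast_one, one_mul, hg]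
  · have : c1 ≤ N * c1 := le_mul_of_one_le_left hc0.le hN0
    linarith
  · intro x hx v hv
    rw [Finset.mem_singleton] at hv
    rw [hv]
    exact (hC x hx).pT
  · intro x hx
    rw [hh]
    exact (hC x hx).hmu
  · intro x hx x' hx'
    have m1 := G.mu_ne (T x) (n x)
    have m2 := G.mu_ne (T x') (n x')
    have q1 := hq1 x hx
    have q2 := hq1 x' hx'
    have e : (qt 1 2 x / qt 1 2 x') ^ h0 * (mu g0 (T x') (n x') / mu g0 (T x) (n x)) ^ E =
        (qt 1 2 x ^ h0 / mu g0 (T x) (n x) ^ E) * (qt 1 2 x' ^ h0 / mu g0 (T x') (n x') ^ E)⁻¹ := by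
      rw [div_pow, div_pow, inv_div]
      field_simp
    rw [e]
    refine (logHeight₁_mul_le _ _).trans ?_
    rw [logHeight₁_inv]
    have h1 := (hC x hx).hka
    have h2 := (hC x' hx').hka
    rw [← hE] at h1 h2
    have e3 : ν = 12 * h0 / N * E * L + 12 * h0 / N * E * L := by rw [hν]; ring
    rw [e3]
    exact add_le_add h1 h2
  · intro x hx v hv
    rw [Finset.mem_singleton] at hv
    rw [hv, Nat.cast_one, one_mul]
    have h1 := (hC x hx).fvp
    rw [← hE, ← hg, ← hz, ← hY] at h1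
    rw [← hg]
    exact h1
  · intro x hx x' hx' h
    exact qt_inj (by decide) (hF x hx).1 (hF x' hx').1 h
  · rw [hexp]
    have h1 := lt_choose hk hpn
    rw [hgk] at h1
    rw [← hg]
    exact_mod_cast h1
  · have h1 : (1 : ℝ) * h ≤ k * h := mul_le_mul_of_nonneg_right hk1 (by linarith)
    linarith
  · have h1 : (1 : ℝ) * ν ≤ k * ν := mul_le_mul_of_nonneg_right hk1 (by linarith)
    linarith
  · have h1 : N * (c1 * (k * ν)) ≤ N * (g * E) := by
      calc N * (c1 * (k * ν)) = c1 * (k * ν * N) := by ring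
        _ = (24 * c1 * k * h0) * (E * L) := by rw [hkE]; ring
        _ ≤ (θ * N) * (E * L) := mul_le_mul_of_nonneg_right hN1 (by positivity)
        _ = N * (θ * L * E) := by ring
        _ ≤ N * (g * E) := by
            apply mul_le_mul_of_nonneg_left _ hNp.le
            exact mul_le_mul_of_nonneg_right hp1.le hE0.le
    exact le_of_mul_le_mul_left h1 hNp
  · have h1 : (N : ℝ) ≤ Real.exp (g / c1) := by
      have h2 : (N : ℝ) ≤ g / c1 := by
        rw [le_div_iff₀ hc0]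
        linarith
      have h3 := Real.add_one_le_exp (g / c1)
      linarith
    have h2 : (E : ℝ) * g ≤ N * (k * ν) := by
      calc (E : ℝ) * g ≤ E * (2 / 5 * L) := mul_le_mul_of_nonneg_left hp2 hE0.le
        _ ≤ 24 * (E * L) := by
            have : 0 < (E : ℝ) * L := by positivity
            linarith
        _ ≤ 24 * k * h0 * (E * L) := by
            apply mul_le_mul_of_nonneg_right _ (by positivity)
            have : (1 : ℝ) * 1 ≤ k * h0 := mul_le_mul hk1 hh0 (by norm_num) (by linarith)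
            nlinarith
        _ = N * (k * ν) := by rw [← hkE]; ring
    have h3 : (0 : ℝ) ≤ k * ν := by
      have : (0 : ℝ) ≤ ν := by linarith
      positivity
    exact h2.trans (mul_le_mul_of_nonneg_right h1 h3)
  · have h4 : (E : ℝ) * t * θ * L ^ 2 / (4 * m0) ≤ Y * g ^ 2 := by
      calc (E : ℝ) * t * θ * L ^ 2 / (4 * m0) = (E * t * L / (2 * m0)) / 2 * (θ * L) := by
            field_simp
            ring
        _ = z / 2 * g * (θ * L) := by rw [← hzg]; ring
        _ ≤ Y * g * g := by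
            apply mul_le_mul (mul_le_mul_of_nonneg_right hYz hg0.le) hp1.le hθL.le (by positivity)
        _ = _ := by ring
    refine le_trans ?_ h4
    have h5 : θ * N * (c1 * (k * h) * (k * ν)) ≤
        θ * N * ((E : ℝ) * t * θ * L ^ 2 / (4 * m0)) := by
      have h6 : θ * N * ((E : ℝ) * t * θ * L ^ 2 / (4 * m0)) =
          (θ ^ 2 * N) / (4 * m0) * (t * E * L ^ 2) := by
        field_simp
      have h7 : θ * N * (c1 * (k * h) * (k * ν)) =
          144 * c1 * k ^ 2 * h0 ^ 2 * (t * E * L ^ 2) := by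
        calc θ * N * (c1 * (k * h) * (k * ν)) = c1 * k * (θ * h) * (k * ν * N) := by ring
          _ = c1 * k * (6 * h0 * t * L) * (24 * k * h0 * (E * L)) := by
              rw [hkE, hh]
              congr 2
              field_simp
          _ = _ := by ring
      rw [h6, h7]
      apply mul_le_mul_of_nonneg_right _ (by positivity)
      rw [le_div_iff₀ (by positivity)]
      refine le_trans (le_of_eq ?_) hN2
      ring
    exact le_of_mul_le_mul_left h5 (by positivity)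

end Pool.Agent.Y180.AK
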